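import Pool.Agent.TH581.HH.Up
import Pool.Agent.TH589.HH.Fac
import Pool.Agent.TH75.HH.Cone
import Pool.Agent.TH985.HH.Star
import Pool.Agent.TH889.HH.Sum
import Pool.Agent.TH576.HH.NullF
import Pool.Agent.TH873.HH.Apa
import Pool.Agent.TH149.HH.Apb
import Pool.Agent.TH45.HH.Lim

/-!
# The sharp constant in the Hermite-Hadamard inequality for convex functions is the dimension

For every `n ≥ 2` the least constant `c_n^cvx` in
`(1/|Ω|) ∫_Ω f ≤ (c/|∂Ω|) ∫_∂Ω f dσ` (all convex domains `Ω` of `ℝⁿ`, all nonnegative `f`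
continuous on the closure and convex on `Ω`) is `n`.

The upper bound is a special case of a theorem of Larson (subharmonic functions); the proof here is
different: one dimensional inequality on the chords of a polytope in a direction `u`, the bound
`|P_u| l ≤ n |P|` for the chords, average over `u`, approximation by polytopes.  The lower bound is
given by thin simplices and functions `max(0, 1 - ⟨v, x⟩)`.
-/

set_option autoImplicit false

open MeasureTheory Set

namespace Pool.Agent.Results.MP_a32717_an.SharpConvexConstant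

/-- The inequality `(1/|Ω|) ∫_Ω f dx ≤ (c/|∂Ω|) ∫_∂Ω f dσ` for all nonempty bounded open convex
sets `Ω ⊆ ℝⁿ` and all functions `f` which are continuous and nonnegative on the closure of `Ω` and
convex on `Ω`; `σ = μHE[n-1]` is the `(n-1)`-dimensional Hausdorff measure. -/
def HermiteHadamard (n : ℕ) (c : ℝ) : Prop :=
  ∀ Ω : Set (EuclideanSpace ℝ (Fin n)),
    IsOpen Ω → Convex ℝ Ω → Bornology.IsBounded Ω → Ω.Nonempty →
    ∀ f : EuclideanSpace ℝ (Fin n) → ℝ,
      ContinuousOn f (closure Ω) → (∀ x ∈ closure Ω, 0 ≤ f x) → ConvexOn ℝ Ω f →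
      1 / volume.real Ω * ∫ x in Ω, f x ≤
        c / (μHE[n - 1] : Measure (EuclideanSpace ℝ (Fin n))).real (frontier Ω) *
          ∫ x in frontier Ω, f x ∂(μHE[n - 1] : Measure (EuclideanSpace ℝ (Fin n)))

/-- **`c_n^cvx = n` for every `n ≥ 2`**; the lower bound holds already for functions of the form
`max(0, 1 - ⟨v, x⟩)`. -/
theorem result (n : ℕ) (hn : 2 ≤ n) :
    IsLeast {c : ℝ | HermiteHadamard n c} n ∧
    (∀ c : ℝ, HermiteHadamard n c ↔ (n : ℝ) ≤ c) ∧
    (∀ c : ℝ, c < n → ∃ Ω : Set (EuclideanSpace ℝ (Fin n)),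
      IsOpen Ω ∧ Convex ℝ Ω ∧ Bornology.IsBounded Ω ∧ Ω.Nonempty ∧
      ∃ v : EuclideanSpace ℝ (Fin n),
        c / (μHE[n - 1] : Measure (EuclideanSpace ℝ (Fin n))).real (frontier Ω) *
            ∫ x in frontier Ω, max 0 (1 - inner ℝ v x)
              ∂(μHE[n - 1] : Measure (EuclideanSpace ℝ (Fin n))) <
          1 / volume.real Ω * ∫ x in Ω, max 0 (1 - inner ℝ v x)) := by
  obtain ⟨k, rfl⟩ : ∃ k, n = k + 2 := ⟨n - 2, by omega⟩
  have hA := Pool.Agent.TH873.HH.t_apa
  have hB := Pool.Agent.TH149.HH.t_apb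
  have hP := Pool.Agent.TH581.HH.t_poly (Pool.Agent.TH889.HH.t_sum
    (Pool.Agent.TH581.HH.t_star Pool.Agent.TH589.HH.t_fac Pool.Agent.TH75.HHCone.t_cone))
  have hF := Pool.Agent.TH45.HH.t_full hP hA hB
  have hup : HermiteHadamard (k + 2) ((k + 2 : ℕ) : ℝ) := by
    have := Pool.Agent.TH581.HH.up_key hB hF k
    have e : ((k + 2 : ℕ) : ℝ) = (k : ℝ) + 2 := by push_cast; ring
    rw [e]
    exact this
  have hlow : ∀ c : ℝ, HermiteHadamard (k + 2) c → ((k + 2 : ℕ) : ℝ) ≤ c := by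
    intro c h
    have := Pool.Agent.TH581.HH.low_lim (k := k) (c := c) h
    push_cast
    linarith
  refine ⟨⟨hup, fun c h => hlow c h⟩,
    fun c => ⟨hlow c, fun h => Pool.Agent.TH581.HH.up_mono hup h⟩, fun c hc => ?_⟩
  by_contra hcon
  push Not at hcon
  have h2 : (k : ℝ) + 2 ≤ c := by
    refine Pool.Agent.TH581.HH.low_lim' fun ε δ hε hδ hδ1 => ?_
    obtain ⟨v, hv⟩ := Pool.Agent.TH581.HH.ph_hinge (m := k + 1) δ
    simp only [hv]
    exact hcon (Pool.Agent.TH581.HH.Om (k + 1) ε) (Pool.Agent.TH581.HH.isOpen_Om _ _)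
      (Pool.Agent.TH581.HH.convex_Om _ _) (Pool.Agent.TH581.HH.bdd_Om _ hε)
      (Pool.Agent.TH581.HH.ne_Om _ hε) v
  push_cast at hc
  linarith

end Pool.Agent.Results.MP_a32717_an.SharpConvexConstant
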